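import Pool.Agent.V7H76.AD.Spec2

set_option autoImplicit false
set_option linter.all false

/-!
REC: the recursion over the generations.
-/

open Finset
open scoped Classical

namespace Pool.Agent.V7H99.AD

open Pool.Agent.V7H76.AD

/-- the modulus of level `κ` -/
def PP (s κ : ℕ) : ℕ := 2 ^ (s * κ - 1)

/-- the number of scales of level `κ` -/
def LL (s N0 κ : ℕ) : ℕ := N0 ^ (2 * κ) / (65536 * 2 ^ s)

/-- the numerical condition -/
def Hc (s N0 c : ℕ) : Prop := 262144 * 2 ^ (2 * s) * (s * (c + 2) + 20) ≤ N0 ^ c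

theorem exists_c (s N0 : ℕ) (hN : 4 ≤ N0) : ∃ c1, 1 ≤ c1 ∧ ∀ c, c1 ≤ c → Hc s N0 c := by
  obtain ⟨C, hC⟩ : ∃ C : ℕ, C = 262144 * 2 ^ (2 * s) := ⟨_, rfl⟩
  have hC0 : 1 ≤ C := by
    rw [hC]
    exact Nat.succ_le_of_lt (by positivity)
  refine ⟨C * (3 * s + 20), Nat.succ_le_of_lt (by positivity), ?_⟩
  have key : ∀ c, C * (3 * s + 20) ≤ c → C * (s * (c + 2) + 20) ≤ 4 ^ c := by
    intro c hc
    induction c, hc using Nat.le_induction with
    | base =>
      obtain ⟨x, hx⟩ : ∃ x, x = C * (3 * s + 20) := ⟨_, rfl⟩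
      rw [← hx]
      have h1 : x < 2 ^ x := Nat.lt_two_pow_self
      have h2 : x * x ≤ 4 ^ x := by
        rw [show (4 : ℕ) = 2 * 2 by norm_num, mul_pow]
        exact Nat.mul_le_mul h1.le h1.le
      have h3 : 1 ≤ x := by
        rw [hx]
        exact Nat.succ_le_of_lt (by positivity)
      have h4 : C * (s * (x + 2) + 20) ≤ x * x := by
        have h5 : C * (s * (x + 2) + 20) = C * s * x + C * (2 * s + 20) := by ring
        have h6 : x * x = C * s * x + C * (2 * s + 20) * x := by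
          nth_rw 1 [hx]
          ring
        rw [h5, h6]
        exact Nat.add_le_add_left (Nat.le_mul_of_pos_right _ h3) _
      exact h4.trans h2
    | succ c hc ih =>
      have h1 : C * (s * (c + 1 + 2) + 20) ≤ 4 * (C * (s * (c + 2) + 20)) := by
        have h2 : 4 * (C * (s * (c + 2) + 20)) = C * (4 * (s * (c + 2) + 20)) := by ring
        rw [h2]
        refine Nat.mul_le_mul_left _ ?_
        have h3 : s * (c + 1 + 2) = s * (c + 2) + s := by ring
        have h4 : s * 2 ≤ s * (c + 2) := Nat.mul_le_mul_left _ (by omega)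
        omega
      rw [pow_succ]
      calc C * (s * (c + 1 + 2) + 20) ≤ 4 * (C * (s * (c + 2) + 20)) := h1
        _ ≤ 4 * 4 ^ c := Nat.mul_le_mul_left _ ih
        _ = 4 ^ c * 4 := by ring
  intro c hc
  unfold Hc
  rw [← hC]
  exact (key c hc).trans (Nat.pow_le_pow_left hN c)

theorem PP_succ {s κ : ℕ} (hs : 1 ≤ s) (hκ : 1 ≤ κ) : PP s (κ + 1) = 2 ^ s * PP s κ := by
  unfold PP
  rw [← pow_add]
  congr 1
  have h1 : s * (κ + 1) = s * κ + s := by ring
  have h2 : 1 ≤ s * κ := Nat.mul_pos hs hκ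
  omega

theorem LL_ge {s N0 κ : ℕ} (h : Hc s N0 κ) : N0 ^ κ ≤ LL s N0 κ := by
  unfold LL Hc at *
  rw [Nat.le_div_iff_mul_le (by positivity), two_mul, pow_add]
  refine Nat.mul_le_mul_left _ (le_trans ?_ h)
  have h1 : (2 : ℕ) ^ s ≤ 2 ^ (2 * s) := Nat.pow_le_pow_right (by norm_num) (by omega)
  have h3 : 262144 * 2 ^ (2 * s) * 1 ≤ 262144 * 2 ^ (2 * s) * (s * (κ + 2) + 20) :=
    Nat.mul_le_mul_left _ (by omega)
  omega

theorem LL_big {s N0 κ : ℕ} (h : Hc s N0 κ) : 100 * (s * (κ + 2) + 20) ≤ LL s N0 κ := by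
  refine le_trans ?_ (LL_ge h)
  unfold Hc at h
  refine le_trans (Nat.mul_le_mul_right _ ?_) h
  have h1 : 1 ≤ 2 ^ (2 * s) := Nat.one_le_two_pow
  omega

theorem LL_succ {s N0 κ : ℕ} (hN : 4 ≤ N0) : 2 * LL s N0 κ ≤ LL s N0 (κ + 1) := by
  unfold LL
  rw [Nat.le_div_iff_mul_le (by positivity)]
  have h1 := Nat.div_mul_le_self (N0 ^ (2 * κ)) (65536 * 2 ^ s)
  have h2 : N0 ^ (2 * (κ + 1)) = N0 ^ (2 * κ) * (N0 * N0) := by
    rw [show 2 * (κ + 1) = 2 * κ + 2 by ring, pow_add]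
    ring
  have h3 : 2 ≤ N0 * N0 := by nlinarith
  calc 2 * (N0 ^ (2 * κ) / (65536 * 2 ^ s)) * (65536 * 2 ^ s)
      = 2 * (N0 ^ (2 * κ) / (65536 * 2 ^ s) * (65536 * 2 ^ s)) := by ring
    _ ≤ 2 * N0 ^ (2 * κ) := Nat.mul_le_mul_left _ h1
    _ = N0 ^ (2 * κ) * 2 := by ring
    _ ≤ N0 ^ (2 * κ) * (N0 * N0) := Nat.mul_le_mul_left _ h3
    _ = N0 ^ (2 * (κ + 1)) := h2.symm

theorem LL_mul (s N0 κ : ℕ) : 65536 * 2 ^ s * LL s N0 κ ≤ (N0 ^ κ) ^ 2 := by
  unfold LL
  rw [← pow_mul, mul_comm κ 2]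
  exact Nat.mul_div_le _ _

/-- the state after some generations -/
structure GS (s N0 : ℕ) (D : Finset ℕ) (c i : ℕ) (n0 n1 i1 t1 q0 : ℕ) (b lab1 : ℕ → ℕ) :
    Prop where
  par : ParC (PP s (c + 1)) (s * (c + 1) - 1) n0 i q0 (dset (2 ^ s) D (c + 1)) b
  hist : Hist (PP s (c + 1)) (s * (c + 1) - 1) n0 i (dset (2 ^ s) D (c + 1)) (PP s c)
    (s * c - 1) n1 i1 (dset (2 ^ s) D c) t1 (2 ^ s) b lab1
  inc : ∀ j, j + 1 < n0 → b j < b (j + 1)
  bdd : ∀ j < n0, b j < 2 ^ i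
  adm : ∀ j < n0, ¬ Dg b j (b j)
  t : t1 = 0 ∨ 8192 * (2 ^ s) ^ 2 ≤ (dset (2 ^ s) D c).card
  n1c : 512 * (16 * PP s (c + 2)) * n1 ≤ 2 ^ i
  iL : i ≤ LL s N0 (c + 1)
  pos : 1 ≤ b 0

/-- the hypotheses on the digits -/
structure Dd (s N0 : ℕ) (D : Finset ℕ) : Prop where
  hs : 2 ≤ s
  hD : ∀ d ∈ D, d < 2 ^ (s - 1)
  hF : ThreeAPFree (D : Set ℕ)
  hc : D.card = N0
  hN : 4 ≤ N0

theorem numN {s N0 c : ℕ} (hs : 2 ≤ s) (h : Hc s N0 c) :
    2048 * (2 * (s * c - 1) + 1) ≤ N0 ^ c := by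
  unfold Hc at h
  refine le_trans ?_ h
  have h1 : 1 ≤ 2 ^ (2 * s) := Nat.one_le_two_pow
  have h2 : 262144 * 1 * (s * (c + 2) + 20) ≤ 262144 * 2 ^ (2 * s) * (s * (c + 2) + 20) :=
    Nat.mul_le_mul_right _ (Nat.mul_le_mul_left _ h1)
  have h3 : s * (c + 2) = s * c + s * 2 := by ring
  omega

theorem numB {s N0 c : ℕ} (hs : 2 ≤ s) (h : Hc s N0 c) :
    16384 * 2 ^ s * (s * (c + 1) - 1 + 1) ≤ N0 ^ c := by
  unfold Hc at h
  refine le_trans ?_ h
  have h1 : (2 : ℕ) ^ s ≤ 2 ^ (2 * s) := Nat.pow_le_pow_right (by norm_num) (by omega)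
  refine Nat.mul_le_mul (Nat.mul_le_mul (by norm_num) h1) ?_
  have h3 : s * (c + 2) = s * (c + 1) + s := by ring
  omega

theorem numT {s N0 c : ℕ} (h : Hc s N0 c) : 8192 * (2 ^ s) ^ 2 ≤ N0 ^ c := by
  unfold Hc at h
  refine le_trans ?_ h
  rw [← pow_mul, mul_comm s 2]
  have h3 : 262144 * 2 ^ (2 * s) * 1 ≤ 262144 * 2 ^ (2 * s) * (s * (c + 2) + 20) :=
    Nat.mul_le_mul_left _ (by omega)
  omega

theorem start (hDIG : S_DIG) {s N0 : ℕ} {D : Finset ℕ} (hd : Dd s N0 D) {c : ℕ} (hc1 : 1 ≤ c)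
    (hc : ∀ c', c ≤ c' → Hc s N0 c') : ∃ (i0 n0 n1 i1 t1 q0 : ℕ) (b lab1 : ℕ → ℕ),
      GS s N0 D c i0 n0 n1 i1 t1 q0 b lab1 := by
  obtain ⟨d1, d2, d3, d4, d5⟩ := hDIG s D hd.hs hd.hD hd.hF c hc1
  obtain ⟨e1, e2, e3, e4, e5⟩ := hDIG s D hd.hs hd.hD hd.hF (c + 1) (by omega)
  rw [hd.hc] at d1 e1
  have hs := hd.hs
  have hc0 := hc c le_rfl
  have hc2 := hc (c + 1) (by omega)
  have k1 : s * (c + 2) = s * (c + 1) + s := by ring
  have k2 : s * (c + 1) = s * c + s := by ring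
  have k3 : 2 ≤ s * c := le_trans hs (Nat.le_mul_of_pos_right _ (by omega))
  have k4 : s * (c + 1 + 2) = s * (c + 2) + s := by ring
  obtain ⟨m, hm⟩ : ∃ m, m = s * (c + 1) - 1 := ⟨_, rfl⟩
  have hPm : PP s (c + 1) = 2 ^ m := by rw [hm]; rfl
  obtain ⟨i0, hi0⟩ : ∃ i0, i0 = 3 * (s * (c + 2)) + 20 := ⟨_, rfl⟩
  have hp2 : ∀ x y : ℕ, x ≤ y → 2 ^ x ≤ 2 ^ y := fun x y h =>
    Nat.pow_le_pow_right (by norm_num) h
  have f0 : 32 * PP s (c + 1) * PP s (c + 1) = 2 ^ (5 + 2 * m) := by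
    rw [hPm, pow_add, two_mul, pow_add]; ring
  have f1 : 16 * PP s (c + 1) * PP s (c + 1) * PP s (c + 1) = 2 ^ (4 + 3 * m) := by
    rw [hPm, pow_add, show 3 * m = m + m + m by ring, pow_add, pow_add]; ring
  have f2 : 16 * PP s c * PP s c * PP s c ≤ 2 ^ i0 := by
    have : 16 * PP s c * PP s c * PP s c = 2 ^ (4 + 3 * (s * c - 1)) := by
      unfold PP
      rw [pow_add, show 3 * (s * c - 1) = (s * c - 1) + (s * c - 1) + (s * c - 1) by ring, pow_add,
        pow_add]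
      ring
    rw [this]
    exact hp2 _ _ (by omega)
  refine ⟨i0, 1, 1, i0, 0, 2 ^ (i0 - (5 + 2 * m)), fun _ => 32 * PP s (c + 1) * PP s (c + 1),
    fun _ => 0, ?_⟩
  constructor
  · constructor
    · rfl
    · omega
    · exact e2
    · exact e3
    · rw [e1]
      exact numN hs hc2
    · exact le_rfl
    · exact le_rfl
    · rw [f1]
      exact hp2 _ _ (by omega)
    · rw [f0, ← pow_add]
      congr 1
      omega
  · constructor
    · constructor
      · intro j hj; simp at hj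
      · intro j hj; simp at hj
      · intro j hj
        have : j = 0 := by simpa using hj
        subst this
        simp [st]
      · intro r hr; simp at hr
      · intro g α _; simp
    · simp
    · exact PP_succ (by omega) hc1
    · exact Nat.one_le_two_pow
    · rfl
    · omega
    · exact le_rfl
    · exact d2
    · exact d3
    · exact f2
    · exact d4
    · exact d5
    · simp
    · rw [d1]
      exact numB hs hc0
    · show S _ 1 < 2 ^ i0
      unfold S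
      rw [sum_range_one, f0]
      exact Nat.pow_lt_pow_right (by norm_num) (by omega)
    · intro α _
      have h1 : ∀ p : ℕ → Prop, ((range 1).filter p).card ≤ 1 := fun p =>
        (card_filter_le _ _).trans (by simp)
      refine le_trans (Nat.mul_le_mul_left _ (h1 _)) ?_
      rw [hPm, show 256 * (16 * 2 ^ m) * 1 = 2 ^ (12 + m) by rw [pow_add]; ring]
      exact hp2 _ _ (by omega)
  · intro j hj; omega
  · intro j _
    show 32 * PP s (c + 1) * PP s (c + 1) < 2 ^ i0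
    rw [f0]
    exact Nat.pow_lt_pow_right (by norm_num) (by omega)
  · rintro j hj ⟨x, y, h1, h2, -⟩
    omega
  · exact Or.inl rfl
  · have : 512 * (16 * PP s (c + 2)) * 1 = 2 ^ (13 + (s * (c + 2) - 1)) := by
      unfold PP
      rw [pow_add]
      ring
    rw [this]
    exact hp2 _ _ (by omega)
  · have := LL_big hc2
    omega
  · rw [f0]
    exact Nat.one_le_two_pow

theorem n_le {b : ℕ → ℕ} {n i : ℕ} (inc : ∀ j, j + 1 < n → b j < b (j + 1))
    (bdd : ∀ j < n, b j < 2 ^ i) : n ≤ 2 ^ i := by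
  have h1 : ∀ j, j < n → j ≤ b j := by
    intro j
    induction j with
    | zero => intro _; exact Nat.zero_le _
    | succ j ih =>
      intro hj
      have h2 := ih (by omega)
      have h3 := inc j hj
      omega
  rcases Nat.eq_zero_or_pos n with h | h
  · rw [h]; exact Nat.zero_le _
  · have h2 := h1 (n - 1) (by omega)
    have h3 := bdd (n - 1) (by omega)
    omega

theorem S_congr {b b' : ℕ → ℕ} {n : ℕ} (h : ∀ j < n, b' j = b j) {l : ℕ} (hl : l ≤ n) :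
    S b' l = S b l := by
  unfold S
  exact sum_congr rfl fun j hj => h j (lt_of_lt_of_le (mem_range.1 hj) hl)

theorem Dg_congr {b b' : ℕ → ℕ} {n : ℕ} (h : ∀ j < n, b' j = b j) {l z : ℕ} (hl : l ≤ n) :
    Dg b' l z ↔ Dg b l z := by
  unfold Dg
  constructor
  · rintro ⟨x, y, h1, h2, h3⟩
    exact ⟨x, y, h1, h2, by rw [← S_congr h (by omega : y ≤ n), ← S_congr h (by omega : x ≤ n), h3]⟩
  · rintro ⟨x, y, h1, h2, h3⟩
    exact ⟨x, y, h1, h2, by rw [S_congr h (by omega : y ≤ n), S_congr h (by omega : x ≤ n), h3]⟩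

theorem step (hDIG : S_DIG) (hGEN : S_GEN) {s N0 : ℕ} {D : Finset ℕ} (hd : Dd s N0 D) {c : ℕ}
    (hc1 : 1 ≤ c) (hc : ∀ c', c ≤ c' → Hc s N0 c') {i n0 n1 i1 t1 q0 : ℕ} {b lab1 : ℕ → ℕ}
    (g : GS s N0 D c i n0 n1 i1 t1 q0 b lab1) :
    ∃ (n0' n1' i1' t1' q0' : ℕ) (b' lab' : ℕ → ℕ),
      GS s N0 D (c + 1) (i + LL s N0 (c + 1)) n0' n1' i1' t1' q0' b' lab' ∧
      n0 ≤ n0' ∧ (∀ j < n0, b' j = b j) ∧
      (∀ i', i ≤ i' → i' < i + LL s N0 (c + 1) → 2 ^ i' ≤ 64 * PP s (c + 1) *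
        ((range (n0' - n0)).filter
          (fun j => 2 ^ i' ≤ b' (n0 + j) ∧ b' (n0 + j) < 2 ^ (i' + 1))).card) := by
  obtain ⟨e1, e2, e3, e4, e5⟩ := hDIG s D hd.hs hd.hD hd.hF (c + 1) (by omega)
  obtain ⟨f1, f2, f3, f4, f5⟩ := hDIG s D hd.hs hd.hD hd.hF (c + 2) (by omega)
  rw [hd.hc] at e1 f1
  have hs := hd.hs
  have hN := hd.hN
  have hc2 := hc (c + 1) (by omega)
  have hc3 := hc (c + 2) (by omega)
  have k1 : s * (c + 2) = s * (c + 1) + s := by ring
  have k2 : s * (c + 1) = s * c + s := by ring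
  have k3 : 2 ≤ s * c := le_trans hs (Nat.le_mul_of_pos_right _ (by omega))
  have k4 : s * (c + 1 + 2) = s * (c + 2) + s := by ring
  have k5 : s * (c + 3) = s * (c + 2) + s := by ring
  have b1 := LL_big hc2
  have hp2 : ∀ x y : ℕ, x ≤ y → 2 ^ x ≤ 2 ^ y := fun x y h =>
    Nat.pow_le_pow_right (by norm_num) h
  obtain ⟨L, hL⟩ : ∃ L, L = LL s N0 (c + 1) := ⟨_, rfl⟩
  have m1 := LL_mul s N0 (c + 1)
  rw [← hL] at b1 m1
  have hnext : Next (PP s (c + 1)) (s * (c + 1) - 1) i L (dset (2 ^ s) D (c + 1)) (PP s (c + 2))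
      (s * (c + 2) - 1) (dset (2 ^ s) D (c + 2)) (2 ^ s) := by
    constructor
    · rfl
    · exact PP_succ (by omega) (by omega)
    · exact Nat.one_le_two_pow
    · omega
    · exact f2
    · exact f3
    · rw [f1]
      exact numN hs hc3
    · have : 16 * PP s (c + 2) * PP s (c + 2) * PP s (c + 2) = 2 ^ (4 + 3 * (s * (c + 2) - 1)) := by
        unfold PP
        rw [pow_add, show 3 * (s * (c + 2) - 1) = (s * (c + 2) - 1) + (s * (c + 2) - 1) +
          (s * (c + 2) - 1) by ring, pow_add, pow_add]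
        ring
      rw [this]
      exact hp2 _ _ (by omega)
    · have : 64 * PP s (c + 2) * PP s (c + 2) = 2 ^ (6 + 2 * (s * (c + 2) - 1)) := by
        unfold PP
        rw [pow_add, show 2 * (s * (c + 2) - 1) = (s * (c + 2) - 1) + (s * (c + 2) - 1) by ring,
          pow_add]
        ring
      rw [this]
      exact hp2 _ _ (by omega)
    · exact e4
    · exact e5
    · omega
    · rw [e1]
      refine le_trans ?_ m1
      exact Nat.mul_le_mul_right _ (by
        have : 1 ≤ 2 ^ s := Nat.one_le_two_pow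
        omega)
    · rw [e1]
      exact m1
    · rw [e1]
      have := numB hs hc2
      exact this
    · rw [hL]
      exact g.iL
  obtain ⟨t, b', lab', q2, o1, o2, o3, o4, o5, o6, o7⟩ := hGEN _ _ _ _ _ L _ _ g.par _ _ _ _ _ _ _ _
    g.hist _ _ _ hnext g.inc g.bdd g.t g.n1c
  refine ⟨n0 + t * PP s (c + 1), n0, i, t, q2, b', lab', ?_, Nat.le_add_right _ _, o1, ?_⟩
  · rw [← hL]
    constructor
    · exact o6
    · exact o7
    · exact o2
    · exact o3
    · intro j hj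
      by_cases h : j < n0
      · rw [o1 j h, Dg_congr o1 h.le]
        exact g.adm j h
      · exact o4 j (by omega) hj
    · right
      rw [e1]
      exact numT hc2
    · have h1 := n_le g.inc g.bdd
      have h2 : 512 * (16 * PP s (c + 1 + 2)) = 2 ^ (13 + (s * (c + 1 + 2) - 1)) := by
        unfold PP
        rw [pow_add]
        ring
      rw [h2, show i + L = L + i by ring, pow_add 2 L i]
      exact Nat.mul_le_mul (hp2 _ _ (by omega)) h1
    · have h1 := g.iL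
      have h2 := @LL_succ s N0 (c + 1) hN
      rw [← hL] at h1 h2
      show i + L ≤ LL s N0 (c + 1 + 1)
      omega
    · have := g.par.hn
      rw [o1 0 (by omega)]
      exact g.pos
  · rw [← hL]
    intro i' h1 h2
    have h3 := o5 i' h1 h2
    rwa [Nat.add_sub_cancel_left]

/-- an admissible pair `(n0, b)` -/
def Rk (s N0 : ℕ) (D : Finset ℕ) (c i : ℕ) (x : ℕ × (ℕ → ℕ)) : Prop :=
  ∃ (n1 i1 t1 q0 : ℕ) (lab1 : ℕ → ℕ), GS s N0 D c i x.1 n1 i1 t1 q0 x.2 lab1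

theorem t_REC (hDIG : S_DIG) (hGEN : S_GEN) : S_REC := by
  intro s N0 D hs hD hF hcard hsN hN
  have hd : Dd s N0 D := ⟨hs, hD, hF, hcard, hN⟩
  obtain ⟨c1, hc1, hc⟩ := exists_c s N0 hN
  obtain ⟨i0, n00, n10, i10, t10, q00, b0, lab0, hst⟩ := start hDIG hd hc1 hc
  obtain ⟨I, hI⟩ : ∃ I : ℕ → ℕ, I = iscale s (c1 + 1) N0 i0 := ⟨_, rfl⟩
  have hI0 : I 0 = i0 := by rw [hI]; rfl
  have hIs : ∀ k, I (k + 1) = I k + LL s N0 (c1 + k + 1) := by
    intro k
    rw [hI]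
    show iscale s (c1 + 1) N0 i0 k + N0 ^ (2 * (k + (c1 + 1))) / (65536 * 2 ^ s) = _
    unfold LL
    rw [show k + (c1 + 1) = c1 + k + 1 by ring]
  have hLpos : ∀ k, 1 ≤ LL s N0 (c1 + k + 1) := by
    intro k
    have := LL_big (hc (c1 + k + 1) (by omega))
    omega
  have hstep : ∀ (k : ℕ) (x : {x : ℕ × (ℕ → ℕ) // Rk s N0 D (c1 + k) (I k) x}),
      ∃ y : {y : ℕ × (ℕ → ℕ) // Rk s N0 D (c1 + (k + 1)) (I (k + 1)) y},
        x.1.1 ≤ y.1.1 ∧ (∀ j < x.1.1, y.1.2 j = x.1.2 j) ∧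
        (∀ i', I k ≤ i' → i' < I (k + 1) → 2 ^ i' ≤ 64 * PP s (c1 + k + 1) *
        ((range (y.1.1 - x.1.1)).filter
          (fun j => 2 ^ i' ≤ y.1.2 (x.1.1 + j) ∧ y.1.2 (x.1.1 + j) < 2 ^ (i' + 1))).card) := by
    rintro k ⟨⟨n0, b⟩, n1, i1, t1, q0, lab1, g⟩
    obtain ⟨n0', n1', i1', t1', q0', b', lab', g', h1, h2, h3⟩ := step hDIG hGEN hd
      (by omega : 1 ≤ c1 + k) (fun c' h => hc c' (by omega)) g
    refine ⟨⟨⟨n0', b'⟩, n1', i1', t1', q0', lab', ?_⟩, h1, h2, ?_⟩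
    · rw [hIs]
      exact g'
    · intro i' hi1 hi2
      rw [hIs] at hi2
      exact h3 i' hi1 hi2
  choose f hf using hstep
  obtain ⟨x0, hx0⟩ : ∃ x0 : {x : ℕ × (ℕ → ℕ) // Rk s N0 D (c1 + 0) (I 0) x}, x0.1 = (n00, b0) :=
    ⟨⟨(n00, b0), n10, i10, t10, q00, lab0, by rw [hI0]; exact hst⟩, rfl⟩
  obtain ⟨X, hX0, hXs⟩ : ∃ X : ∀ k, {x : ℕ × (ℕ → ℕ) // Rk s N0 D (c1 + k) (I k) x},
      X 0 = x0 ∧ ∀ k, X (k + 1) = f k (X k) := by
    refine ⟨fun k => Nat.rec (motive := fun k => {x : ℕ × (ℕ → ℕ) // Rk s N0 D (c1 + k) (I k) x})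
      x0 (fun k x => f k x) k, rfl, fun k => rfl⟩
  obtain ⟨n, hn⟩ : ∃ n : ℕ → ℕ, ∀ k, n k = (X k).1.1 := ⟨_, fun _ => rfl⟩
  obtain ⟨B, hB⟩ : ∃ B : ℕ → ℕ → ℕ, ∀ k, B k = (X k).1.2 := ⟨_, fun _ => rfl⟩
  have hG : ∀ k, ∃ (n1 i1 t1 q0 : ℕ) (lab1 : ℕ → ℕ),
      GS s N0 D (c1 + k) (I k) (n k) n1 i1 t1 q0 (B k) lab1 := by
    intro k
    rw [hn, hB]
    exact (X k).2
  have hF1 : ∀ k, n k ≤ n (k + 1) := by
    intro k
    rw [hn, hn, hXs]
    exact (hf k (X k)).1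
  have hF2 : ∀ k, ∀ j < n k, B (k + 1) j = B k j := by
    intro k j hj
    rw [hn] at hj
    rw [hB, hB, hXs]
    exact (hf k (X k)).2.1 j hj
  have hF3 : ∀ k i', I k ≤ i' → i' < I (k + 1) → 2 ^ i' ≤ 64 * PP s (c1 + k + 1) *
        ((range (n (k + 1) - n k)).filter
          (fun j => 2 ^ i' ≤ B (k + 1) (n k + j) ∧ B (k + 1) (n k + j) < 2 ^ (i' + 1))).card := by
    intro k i' h1 h2
    rw [hn, hn, hB, hXs]
    exact (hf k (X k)).2.2 i' h1 h2
  have hlt : ∀ k, n k < n (k + 1) := by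
    intro k
    by_contra h
    have h1 := hF3 k (I k) le_rfl (by rw [hIs]; have := hLpos k; omega)
    rw [show n (k + 1) - n k = 0 by omega] at h1
    simp at h1
  have hn0 : ∀ k, k + 1 ≤ n k := by
    intro k
    induction k with
    | zero =>
      obtain ⟨_, _, _, _, _, g⟩ := hG 0
      exact g.par.hn
    | succ k ih =>
      have := hlt k
      omega
  have hag : ∀ k k', k ≤ k' → ∀ j < n k, B k' j = B k j := by
    intro k k' h
    induction k', h using Nat.le_induction with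
    | base => intro j _; rfl
    | succ k' h ih =>
      intro j hj
      have h1 : n k ≤ n k' := by
        clear ih hj
        induction k', h using Nat.le_induction with
        | base => exact le_rfl
        | succ k' h ih => exact ih.trans (hF1 k')
      rw [hF2 k' j (by omega), ih j hj]
  obtain ⟨a, ha⟩ : ∃ a : ℕ → ℕ, ∀ j, a j = B j j := ⟨_, fun _ => rfl⟩
  have haB : ∀ k, ∀ j < n k, a j = B k j := by
    intro k j hj
    rw [ha]
    rcases le_total j k with h | h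
    · exact (hag j k h j (by have := hn0 j; omega)).symm
    · exact hag k j h j hj
  have hmono : StrictMono a := by
    apply strictMono_nat_of_lt_succ
    intro j
    have h1 := hn0 (j + 1)
    rw [haB (j + 1) j (by omega), haB (j + 1) (j + 1) (by omega)]
    obtain ⟨_, _, _, _, _, g⟩ := hG (j + 1)
    exact g.inc j (by omega)
  have hadm : ∀ j, ¬ Dg a j (a j) := by
    intro j
    have h1 := hn0 j
    obtain ⟨_, _, _, _, _, g⟩ := hG j
    have h2 := g.adm j (by omega)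
    rw [haB j j (by omega)]
    rwa [Dg_congr (b := B j) (b' := a) (n := n j) (haB j) (by omega)]
  refine ⟨c1 + 1, i0, a, by omega, hmono, ?_, ?_, ?_⟩
  · obtain ⟨_, _, _, _, _, g⟩ := hG 0
    rw [ha]
    exact g.pos
  · intro i k l hkl hli h
    apply hadm i
    refine ⟨k, l + 1, by omega, by omega, ?_⟩
    rw [h]
    unfold S
    have e1 : Icc k l = Ico k (l + 1) := by
      ext x
      rw [mem_Icc, mem_Ico]
      omega
    have e : ∑ j ∈ Icc k l, a j = ∑ j ∈ Ico k (l + 1), a j := by rw [e1]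
    rw [e, sum_range_add_sum_Ico a (by omega)]
  · intro k i h1 h2
    rw [← hI] at h1 h2
    have h3 := hF3 k i h1 h2
    have hex : ∀ y : ℕ, ∃ j, y ≤ a j := fun y => ⟨y, hmono.id_le y⟩
    obtain ⟨N, hN1, hN2⟩ : ∃ N, (∀ j < N, a j < 2 ^ i) ∧ ∀ j, N ≤ j → 2 ^ i ≤ a j := by
      refine ⟨Nat.find (hex (2 ^ i)), fun j hj => not_le.1 (Nat.find_min (hex (2 ^ i)) hj),
        fun j hj => (Nat.find_spec (hex (2 ^ i))).trans (hmono.monotone hj)⟩
    obtain ⟨N', hN'1, hN'2⟩ : ∃ N, (∀ j < N, a j < 2 ^ (i + 1)) ∧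
        ∀ j, N ≤ j → 2 ^ (i + 1) ≤ a j := by
      refine ⟨Nat.find (hex (2 ^ (i + 1))), fun j hj =>
        not_le.1 (Nat.find_min (hex (2 ^ (i + 1))) hj),
        fun j hj => (Nat.find_spec (hex (2 ^ (i + 1)))).trans (hmono.monotone hj)⟩
    have hcd : ((range (n (k + 1) - n k)).filter
          (fun j => 2 ^ i ≤ B (k + 1) (n k + j) ∧ B (k + 1) (n k + j) < 2 ^ (i + 1))).card ≤
          N' - N := by
      rw [← Nat.card_Ico N N']
      refine card_le_card_of_injOn (fun j => n k + j) ?_ ?_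
      · intro j hj
        rw [mem_coe, mem_filter, mem_range] at hj
        obtain ⟨hj1, hj2, hj3⟩ := hj
        have h4 : n k + j < n (k + 1) := by omega
        rw [← haB (k + 1) _ h4] at hj2 hj3
        rw [mem_coe, mem_Ico]
        show N ≤ n k + j ∧ n k + j < N'
        constructor
        · by_contra h5
          have := hN1 (n k + j) (by omega)
          omega
        · by_contra h5
          have := hN'2 (n k + j) (by omega)
          omega
      · intro x _ y _ hxy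
        have : n k + x = n k + y := hxy
        omega
    have h4 : 2 ^ i ≤ 64 * PP s (c1 + k + 1) * (N' - N) := h3.trans (Nat.mul_le_mul_left _ hcd)
    have h5 : N < N' := by
      by_contra h6
      rw [show N' - N = 0 by omega] at h4
      simp at h4
    refine ⟨N, N', h5, hN1, hN'2, hN2, hN'1, ?_⟩
    unfold PP at h4
    rwa [show s * (k + (c1 + 1)) - 1 = s * (c1 + k + 1) - 1 by
      rw [show k + (c1 + 1) = c1 + k + 1 by ring]]

end Pool.Agent.V7H99.AD
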